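import Mathlib

/-!
# Ultrafilters without definable maximal eventually different families

`Kills F E`: no ultrafilter containing the filter `F` has `E` as a maximal eventually different
family.
-/

open Set Filter Cardinal

namespace Q214.UMED

/-- The filter decides that `E` is not maximal eventually different. -/
def Kills (F : Filter ℕ) (E : Set (ℕ → ℕ)) : Prop :=
  (∃ f ∈ E, ∃ g ∈ E, f ≠ g ∧ ∀ᶠ n in F, f n = g n) ∨ (∃ h : ℕ → ℕ, ∀ f ∈ E, ∀ᶠ n in F, f n ≠ h n)

lemma Kills.mono {F F' : Filter ℕ} (h : F' ≤ F) {E : Set (ℕ → ℕ)} (hk : Kills F E) :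
    Kills F' E := by
  rcases hk with ⟨f, hf, g, hg, hne, hev⟩ | ⟨g, hg⟩
  · exact Or.inl ⟨f, hf, g, hg, hne, h hev⟩
  · exact Or.inr ⟨g, fun f hf => h (hg f hf)⟩

/-- The functions `φ x`, `x ∉ J`, are independent modulo the filter `F`. -/
def Indep {ι : Type} (φ : ι → ℕ → ℕ) (F : Filter ℕ) (J : Set ι) : Prop :=
  ∀ (s : Finset ι) (v : ι → ℕ), (∀ x ∈ s, x ∉ J) → ∃ᶠ n in F, ∀ x ∈ s, φ x n = v x

lemma Indep.mono_set {ι : Type} {φ : ι → ℕ → ℕ} {F : Filter ℕ} {J J' : Set ι} (h : J ⊆ J')
    (hi : Indep φ F J) : Indep φ F J' :=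
  fun s v hs => hi s v (fun x hx hxJ => hs x hx (h hxJ))

/-- The successor step. -/
theorem step {ι : Type} {φ : ι → ℕ → ℕ} (F : Filter ℕ) (J : Set ι) (hi : Indep φ F J)
    (hJ : ∃ x, x ∉ J) (E : Set (ℕ → ℕ)) :
    ∃ (F' : Filter ℕ) (j : Finset ι), F' ≤ F ∧ Indep φ F' (J ∪ ↑j) ∧ Kills F' E := by
  classical
  by_cases hc : ∃ f ∈ E, ∃ g ∈ E, f ≠ g ∧ ∃ (s : Finset ι) (v : ι → ℕ), (∀ x ∈ s, x ∉ J) ∧
      ∀ (t : Finset ι) (w : ι → ℕ), s ⊆ t → (∀ x ∈ t, x ∉ J) → (∀ x ∈ s, w x = v x) →
        ∃ᶠ n in F, (∀ x ∈ t, φ x n = w x) ∧ f n = g n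
  · obtain ⟨f, hf, g, hg, hne, s, v, hsJ, hpos⟩ := hc
    refine ⟨F ⊓ 𝓟 {n | f n = g n ∧ ∀ x ∈ s, φ x n = v x}, s, inf_le_left, ?_, ?_⟩
    · intro t w ht
      have ht1 : ∀ x ∈ t, x ∉ J := fun x hx h => ht x hx (Or.inl h)
      have ht2 : ∀ x ∈ t, x ∉ s := fun x hx h => ht x hx (Or.inr h)
      have h1 := hpos (s ∪ t) (fun x => if x ∈ s then v x else w x) Finset.subset_union_left
        (by
          intro x hx
          rcases Finset.mem_union.1 hx with h | h
          · exact hsJ x h
          · exact ht1 x h)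
        (by
          intro x hx
          simp [hx])
      rw [frequently_inf_principal]
      refine h1.mono ?_
      rintro n ⟨h2, h3⟩
      refine ⟨⟨h3, ?_⟩, ?_⟩
      · intro x hx
        have := h2 x (Finset.mem_union_left _ hx)
        simpa [hx] using this
      · intro x hx
        have := h2 x (Finset.mem_union_right _ hx)
        simpa [ht2 x hx] using this
    · refine Or.inl ⟨f, hf, g, hg, hne, ?_⟩
      rw [eventually_inf_principal]
      exact Eventually.of_forall fun n hn => hn.1
  · push Not at hc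
    obtain ⟨x₀, hx₀⟩ := hJ
    by_cases hfin : E.Finite
    · refine ⟨F, ∅, le_rfl, by simpa using hi, Or.inr ⟨fun n => ∑ f ∈ hfin.toFinset, f n + 1, ?_⟩⟩
      intro f hf
      refine Eventually.of_forall fun n => ?_
      have : f n ≤ ∑ f ∈ hfin.toFinset, f n :=
        Finset.single_le_sum (f := fun f : ℕ → ℕ => f n) (fun _ _ => Nat.zero_le _)
          (hfin.mem_toFinset.2 hf)
      show f n ≠ (∑ f ∈ hfin.toFinset, f n) + 1
      omega
    · have hinf : E.Infinite := hfin
      let e : ℕ → (ℕ → ℕ) := fun k => (Set.Infinite.natEmbedding E hinf k).1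
      have heE : ∀ k, e k ∈ E := fun k => (Set.Infinite.natEmbedding E hinf k).2
      have heinj : Function.Injective e := fun a b hab =>
        (Set.Infinite.natEmbedding E hinf).injective (Subtype.ext hab)
      let h : ℕ → ℕ := fun n => e (φ x₀ n) n
      refine ⟨F ⊓ ⨅ f ∈ E, 𝓟 {n | f n ≠ h n}, {x₀}, inf_le_left, ?_, ?_⟩
      · intro t w ht
        have ht1 : ∀ x ∈ t, x ∉ J := fun x hx h => ht x hx (Or.inl h)
        have ht2 : x₀ ∉ t := fun hx => ht x₀ hx (Or.inr (by simp))
        intro hev
        -- finitely many elements of `E` are responsible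
        have hbasis : ∃ S : Finset (ℕ → ℕ), (∀ f ∈ S, f ∈ E) ∧
            ∀ᶠ n in F, (∀ f ∈ S, f n ≠ h n) → ¬ ∀ x ∈ t, φ x n = w x := by
          rw [Filter.eventually_iff, Filter.mem_inf_iff_superset] at hev
          obtain ⟨t₁, h1, t₂, h2, h12⟩ := hev
          rw [iInf_subtype', Filter.mem_iInf] at h2
          obtain ⟨I, hI, V, hV, hVt⟩ := h2
          refine ⟨hI.toFinset.image Subtype.val, ?_, ?_⟩
          · intro f hf
            rw [Finset.mem_image] at hf
            obtain ⟨g, _, rfl⟩ := hf
            exact g.2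
          · filter_upwards [h1] with n hn hn2
            have h3 : n ∈ t₂ := by
              rw [hVt, mem_iInter]
              rintro ⟨i, hi⟩
              have h4 := hV ⟨i, hi⟩
              rw [mem_principal] at h4
              apply h4
              exact hn2 i.1 (by
                rw [Finset.mem_image]
                exact ⟨i, hI.mem_toFinset.2 hi, rfl⟩)
            exact h12 ⟨hn, h3⟩
        obtain ⟨S, hSE, hS⟩ := hbasis
        obtain ⟨k, hk⟩ : ∃ k, e k ∉ S := by
          by_contra hall
          push Not at hall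
          have : (range e).Finite := (Finset.finite_toSet S).subset (by
            rintro _ ⟨k, rfl⟩
            exact hall k)
          exact infinite_range_of_injective heinj this
        -- extend the condition
        have hext : ∀ S' : Finset (ℕ → ℕ), S' ⊆ S → ∃ (t' : Finset ι) (w' : ι → ℕ),
            insert x₀ t ⊆ t' ∧ (∀ x ∈ t', x ∉ J) ∧
            (∀ x ∈ insert x₀ t, w' x = Function.update w x₀ k x) ∧
            ∀ f ∈ S', ∀ᶠ n in F, (∀ x ∈ t', φ x n = w' x) → f n ≠ e k n := by
          intro S'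
          induction S' using Finset.induction_on with
          | empty =>
            intro _
            refine ⟨insert x₀ t, Function.update w x₀ k, subset_rfl, ?_, fun x _ => rfl, ?_⟩
            · intro x hx
              rcases Finset.mem_insert.1 hx with rfl | hx
              · exact hx₀
              · exact ht1 x hx
            · simp
          | insert f S' hf ih =>
            intro hsub
            obtain ⟨t', w', h1, h2, h3, h4⟩ := ih ((Finset.subset_insert _ _).trans hsub)
            have hfS : f ∈ S := hsub (Finset.mem_insert_self _ _)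
            have hfne : f ≠ e k := fun hh => hk (hh ▸ hfS)
            obtain ⟨t'', w'', h5, h6, h7, h8⟩ := hc f (hSE f hfS) (e k) (heE k) hfne t' w' h2
            refine ⟨t'', w'', h1.trans h5, h6, ?_, ?_⟩
            · intro x hx
              rw [h7 x (h1 hx), h3 x hx]
            · intro f' hf'
              rcases Finset.mem_insert.1 hf' with rfl | hf'
              · exact h8
              · filter_upwards [h4 f' hf'] with n hn hn2
                apply hn
                intro x hx
                rw [hn2 x (h5 hx), h7 x hx]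
        obtain ⟨t', w', h1, h2, h3, h4⟩ := hext S subset_rfl
        have h5 : ∀ᶠ n in F, ∀ f ∈ S, (∀ x ∈ t', φ x n = w' x) → f n ≠ e k n := by
          rw [Filter.eventually_all_finset]
          exact h4
        have h6 := (hi t' w' h2).and_eventually (h5.and hS)
        obtain ⟨n, hn1, hn2, hn3⟩ := h6.exists
        apply hn3
        · intro f hf
          have h7 := hn2 f hf hn1
          have h8 : φ x₀ n = k := by
            rw [hn1 x₀ (h1 (Finset.mem_insert_self _ _)), h3 x₀ (Finset.mem_insert_self _ _)]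
            simp
          show f n ≠ e (φ x₀ n) n
          rw [h8]
          exact h7
        · intro x hx
          rw [hn1 x (h1 (Finset.mem_insert_of_mem hx)), h3 x (Finset.mem_insert_of_mem hx)]
          have : x ≠ x₀ := fun hh => ht2 (hh ▸ hx)
          simp [this]
      · refine Or.inr ⟨h, fun f hf => ?_⟩
        have : F ⊓ ⨅ f ∈ E, 𝓟 {n | f n ≠ h n} ≤ 𝓟 {n | f n ≠ h n} :=
          inf_le_right.trans (iInf₂_le f hf)
        exact this (mem_principal_self _)

/-! ### An independent family of continuum many functions -/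

/-- The countable index set. -/
abbrev T : Type := Σ k : ℕ, ((Fin k → Bool) → ℕ)

lemma exists_independent : ∃ φ : (ℕ → Bool) → ℕ → ℕ, Indep φ cofinite ∅ := by
  have hinf : Infinite T := by
    refine Infinite.of_injective (fun k : ℕ => (⟨k, fun _ => 0⟩ : T)) ?_
    intro a b hab
    exact congrArg Sigma.fst hab
  have _ : Encodable T := Encodable.ofCountable T
  have _ : Denumerable T := Denumerable.ofEncodableOfInfinite T
  let e : T ≃ ℕ := Denumerable.eqv T
  refine ⟨fun x n => (e.symm n).2 (fun i => x i), ?_⟩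
  intro s v _
  -- separate the points of `s`
  have hsep : ∀ᶠ k : ℕ in atTop, ∀ x ∈ s, ∀ y ∈ s, x ≠ y →
      (fun i : Fin k => x i) ≠ (fun i : Fin k => y i) := by
    rw [Filter.eventually_all_finset]
    intro x _
    rw [Filter.eventually_all_finset]
    intro y _
    by_cases hxy : x = y
    · simp [hxy]
    · obtain ⟨i, hi⟩ := Function.ne_iff.1 hxy
      filter_upwards [eventually_gt_atTop i] with k hk _ heq
      exact hi (congrFun heq ⟨i, hk⟩)
  obtain ⟨k₀, hk₀⟩ := eventually_atTop.1 hsep
  rw [Filter.frequently_cofinite_iff_infinite]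
  classical
  let Φ : ∀ k, ((Fin k → Bool) → ℕ) := fun k p =>
    if hp : ∃ x ∈ s, (fun i : Fin k => x i) = p then v hp.choose else 0
  refine Set.infinite_of_injective_forall_mem (f := fun m : ℕ => e ⟨k₀ + m, Φ (k₀ + m)⟩) ?_ ?_
  · intro a b hab
    have h1 := e.injective hab
    have h2 : k₀ + a = k₀ + b := congrArg Sigma.fst h1
    omega
  · intro m
    show ∀ x ∈ s, (e.symm (e ⟨k₀ + m, Φ (k₀ + m)⟩)).2 (fun i => x i) = v x
    intro x hx
    rw [e.symm_apply_apply]
    show Φ (k₀ + m) (fun i => x i) = v x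
    have hp : ∃ y ∈ s, (fun i : Fin (k₀ + m) => y i) = (fun i : Fin (k₀ + m) => x i) :=
      ⟨x, hx, rfl⟩
    simp only [Φ]
    rw [dif_pos hp]
    congr 1
    by_contra hne
    exact hk₀ (k₀ + m) (by omega) hp.choose hp.choose_spec.1 x hx hne hp.choose_spec.2

end Q214.UMED
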