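import Pool.Agent.Q214.UMED.Basic

/-!
# The recursion
-/

open Set Filter Cardinal

namespace Q214.UMED

/-- For every family of at most continuum many sets of functions there is a nonprincipal
ultrafilter which kills all of them. -/
theorem exists_ultrafilter {ι : Type} [LinearOrder ι] [WellFoundedLT ι]
    (hsmall : ∀ i : ι, #(Iio i) < 𝔠) (E : ι → Set (ℕ → ℕ)) :
    ∃ U : Ultrafilter ℕ, (U : Filter ℕ) ≤ cofinite ∧ ∀ i, Kills U (E i) := by
  classical
  obtain ⟨φ, hφ⟩ := exists_independent
  let R := ℕ → Bool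
  -- one step as a function
  let Good : Filter ℕ → Set R → Prop := fun F J => Indep φ F J ∧ ∃ x, x ∉ J
  have hstep : ∀ (F : Filter ℕ) (J : Set R) (D : Set (ℕ → ℕ)), ∃ r : Filter ℕ × Finset R,
      Good F J → (r.1 ≤ F ∧ Indep φ r.1 (J ∪ ↑r.2) ∧ Kills r.1 D) := by
    intro F J D
    by_cases h : Good F J
    · obtain ⟨F', j, h1, h2, h3⟩ := step F J h.1 h.2 D
      exact ⟨⟨F', j⟩, fun _ => ⟨h1, h2, h3⟩⟩
    · exact ⟨⟨F, ∅⟩, fun h' => absurd h' h⟩
  choose next hnext using hstep
  -- the recursion
  let Gfun : ∀ i : ι, (∀ k, k < i → Filter ℕ × Finset R) → Filter ℕ × Finset R := fun i prev =>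
    next (cofinite ⊓ ⨅ k : Iio i, (prev k.1 k.2).1) (⋃ k : Iio i, ((prev k.1 k.2).2 : Set R)) (E i)
  let out : ι → Filter ℕ × Finset R := WellFounded.fix (wellFounded_lt (α := ι)) Gfun
  have hout : ∀ i, out i = next (cofinite ⊓ ⨅ k : Iio i, (out k.1).1)
      (⋃ k : Iio i, ((out k.1).2 : Set R)) (E i) := fun i =>
    WellFounded.fix_eq (wellFounded_lt (α := ι)) Gfun i
  let Fb : ι → Filter ℕ := fun i => cofinite ⊓ ⨅ k : Iio i, (out k.1).1
  let Jb : ι → Set R := fun i => ⋃ k : Iio i, ((out k.1).2 : Set R)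
  have hJsmall : ∀ i, ∃ x, x ∉ Jb i := by
    intro i
    by_contra hall
    push Not at hall
    have h1 : Jb i = Set.univ := eq_univ_of_forall hall
    have h2 : #(Jb i) < 𝔠 := by
      refine lt_of_le_of_lt (mk_iUnion_le _) ?_
      have h3 : (⨆ k : Iio i, #((out k.1).2 : Set R)) ≤ ℵ₀ := by
        apply ciSup_le'
        intro k
        exact (Cardinal.mk_le_aleph0_iff.2 (Finset.countable_toSet _).to_subtype)
      exact lt_of_le_of_lt (mul_le_mul' le_rfl h3)
        (Cardinal.mul_lt_of_lt aleph0_le_continuum (hsmall i) aleph0_lt_continuum)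
    rw [h1, mk_univ] at h2
    have h3 : #R = 𝔠 := by simp [R]
    rw [h3] at h2
    exact lt_irrefl _ h2
  -- the main induction
  have hmain : ∀ i, Indep φ (Fb i) (Jb i) := by
    intro i
    induction i using WellFoundedLT.induction with
    | _ i ih =>
      have hgood : ∀ k < i, (out k).1 ≤ Fb k ∧ Indep φ (out k).1 (Jb k ∪ ↑(out k).2) := by
        intro k hk
        have h1 := hnext (Fb k) (Jb k) (E k) ⟨ih k hk, hJsmall k⟩
        rw [← hout k] at h1
        exact ⟨h1.1, h1.2.1⟩
      intro s v hs hev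
      -- a stage responsible for the failure
      have hdec : ∀ k < i, ∀ l < i, k ≤ l → (out l).1 ≤ (out k).1 := by
        intro k hk l hl hkl
        rcases hkl.lt_or_eq with h | h
        · refine (hgood l hl).1.trans (inf_le_right.trans ?_)
          exact iInf_le (fun m : Iio l => (out m.1).1) ⟨k, h⟩
        · rw [h]
      have hcof : ∀ k < i, (out k).1 ≤ cofinite := fun k hk =>
        (hgood k hk).1.trans inf_le_left
      by_cases hne : Nonempty (Iio i)
      · have h1 : cofinite ⊓ ⨅ k : Iio i, (out k.1).1 = ⨅ k : Iio i, (out k.1).1 := by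
          apply inf_of_le_right
          obtain ⟨k⟩ := hne
          exact (iInf_le _ k).trans (hcof k.1 k.2)
        rw [show Fb i = ⨅ k : Iio i, (out k.1).1 from h1] at hev
        have hdir : Directed (· ≥ ·) (fun k : Iio i => (out k.1).1) := by
          intro k l
          rcases le_total k.1 l.1 with h | h
          · exact ⟨l, hdec _ k.2 _ l.2 h, le_rfl⟩
          · exact ⟨k, le_rfl, hdec _ l.2 _ k.2 h⟩
        rw [Filter.eventually_iff, mem_iInf_of_directed hdir] at hev
        obtain ⟨k, hk⟩ := hev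
        refine (hgood k.1 k.2).2 s v ?_ hk
        intro x hx hmem
        apply hs x hx
        rcases hmem with h | h
        · rw [mem_iUnion] at h ⊢
          obtain ⟨l, hl⟩ := h
          exact ⟨⟨l.1, lt_trans l.2 k.2⟩, hl⟩
        · rw [mem_iUnion]
          exact ⟨k, h⟩
      · have h1 : Fb i = cofinite := by
          show cofinite ⊓ ⨅ k : Iio i, (out k.1).1 = cofinite
          have : IsEmpty (Iio i) := not_nonempty_iff.1 hne
          rw [iInf_of_empty, inf_top_eq]
        rw [h1] at hev
        exact hφ s v (fun x _ => notMem_empty x) hev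
  have hout2 : ∀ i, (out i).1 ≤ Fb i ∧ Indep φ (out i).1 (Jb i ∪ ↑(out i).2) ∧
      Kills (out i).1 (E i) := by
    intro i
    have h1 := hnext (Fb i) (Jb i) (E i) ⟨hmain i, hJsmall i⟩
    rw [← hout i] at h1
    exact h1
  have hdec : ∀ k l, k ≤ l → (out l).1 ≤ (out k).1 := by
    intro k l hkl
    rcases hkl.lt_or_eq with h | h
    · refine (hout2 l).1.trans (inf_le_right.trans ?_)
      exact iInf_le (fun m : Iio l => (out m.1).1) ⟨k, h⟩
    · rw [h]
  let F : Filter ℕ := cofinite ⊓ ⨅ i, (out i).1
  have hF : F.NeBot := by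
    by_cases hne : Nonempty ι
    · have h1 : F = ⨅ i, (out i).1 := by
        apply inf_of_le_right
        obtain ⟨k⟩ := hne
        exact (iInf_le _ k).trans ((hout2 k).1.trans inf_le_left)
      rw [h1]
      have hdir : Directed (· ≥ ·) (fun i : ι => (out i).1) := by
        intro k l
        rcases le_total k l with h | h
        · exact ⟨l, hdec _ _ h, le_rfl⟩
        · exact ⟨k, le_rfl, hdec _ _ h⟩
      apply iInf_neBot_of_directed hdir
      intro i
      have h2 := (hout2 i).2.1 ∅ (fun _ => 0) (by simp)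
      rw [neBot_iff]
      intro hbot
      rw [hbot] at h2
      simp at h2
    · have : IsEmpty ι := not_nonempty_iff.1 hne
      have h1 : F = cofinite := by
        show cofinite ⊓ ⨅ i, (out i).1 = cofinite
        rw [iInf_of_empty, inf_top_eq]
      rw [h1]
      infer_instance
  obtain ⟨U, hU⟩ := Ultrafilter.exists_le F
  refine ⟨U, hU.trans inf_le_left, fun i => ?_⟩
  exact (hout2 i).2.2.mono (hU.trans (inf_le_right.trans (iInf_le _ i)))

end Q214.UMED
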